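import Pool.Agent.H83.D3N.Targets
import Pool.Agent.H91.G.PUB

/-!
# Row EZS of the board obk_modules: the energy estimate near a quadric for families of packets
-/

set_option autoImplicit false

namespace Pool.Agent.H4.D3N.EZS

open MeasureTheory Set
open scoped ENNReal NNReal RealInnerProductSpace
open Pool.Agent.H83.G (Z E TF TP Lo ctr cp IsPU Sep Bp e ph)
open Pool.Agent.H83.LS (BCd EE)
open Pool.Agent.H81.GT (tz SymE IsX Gf)
open Pool.Agent.H92.EZ (sgm dsg T_EZ)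
open Pool.Agent.H83.D3N

lemma TP_smul (c : ℂ) (β : E 2 → ℂ) (η : E 2) (s : ℝ) (G : Z 2 → ℂ) (z : Z 2) :
    TP (fun x => c * β x) η s G z = c * TP β η s G z := by
  unfold TP TF cp
  rw [← integral_const_mul]
  refine integral_congr_ae (Filter.Eventually.of_forall fun ζ => ?_)
  simp only
  ring

lemma card_fib {α γ : Type} [Fintype γ] [DecidableEq γ] (P : Finset α) (cl : α → γ) :
    P.card = ∑ q : γ, (P.filter fun p => cl p = q).card :=
  Finset.card_eq_sum_card_fiberwise (fun p _ => Finset.mem_coe.2 (Finset.mem_univ (cl p)))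

lemma tag_eq (K₁ : ℝ) (hK : 1 ≤ K₁) (k k' : Fin 2 → ℤ) (y : E 2)
    (h : ‖y - ctr K₁⁻¹ k‖ ≤ 100 / K₁) (h' : ‖y - ctr K₁⁻¹ k'‖ ≤ 100 / K₁)
    (hmod : ∀ i, (k i : ZMod 601) = (k' i : ZMod 601)) : k = k' := by
  have hK0 : 0 < K₁ := by linarith
  have h1 : ‖ctr K₁⁻¹ k - ctr K₁⁻¹ k'‖ ≤ 200 / K₁ := by
    have e1 : ctr K₁⁻¹ k - ctr K₁⁻¹ k' = (y - ctr K₁⁻¹ k') - (y - ctr K₁⁻¹ k) := by abel
    rw [e1]
    refine (norm_sub_le _ _).trans ?_
    have e2 : 200 / K₁ = 100 / K₁ + 100 / K₁ := by ring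
    rw [e2]
    exact add_le_add h' h
  funext i
  have h2 : |(ctr K₁⁻¹ k - ctr K₁⁻¹ k') i| ≤ 200 / K₁ := by
    rw [← Real.norm_eq_abs]
    exact (PiLp.norm_apply_le _ i).trans h1
  have h3 : (ctr K₁⁻¹ k - ctr K₁⁻¹ k') i = K₁⁻¹ / 3 * ((k i : ℝ) - (k' i : ℝ)) := by
    unfold ctr
    simp only [PiLp.sub_apply, PiLp.smul_apply, smul_eq_mul]
    push_cast
    ring
  rw [h3, abs_mul, abs_of_pos (by positivity)] at h2
  have h4 : |(k i : ℝ) - (k' i : ℝ)| ≤ 600 := by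
    have h5 : K₁⁻¹ / 3 * |(k i : ℝ) - (k' i : ℝ)| = |(k i : ℝ) - (k' i : ℝ)| / (3 * K₁) := by
      field_simp
    rw [h5, div_le_iff₀ (by positivity)] at h2
    have h6 : 200 / K₁ * (3 * K₁) = 600 := by
      field_simp
      norm_num
    rwa [h6] at h2
  have h7 : |k i - k' i| ≤ 600 := by
    have : ((|k i - k' i| : ℤ) : ℝ) ≤ ((600 : ℤ) : ℝ) := by
      push_cast
      exact h4
    exact_mod_cast this
  have h8 : (601 : ℤ) ∣ k' i - k i := by
    have := (ZMod.intCast_eq_intCast_iff_dvd_sub (k i) (k' i) 601).1 (hmod i)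
    exact_mod_cast this
  rw [abs_le] at h7
  omega

theorem pf_EZS (hEZ : Pool.Agent.H92.EZ.T_EZ) : T_EZS := by
  classical
  intro κ δ β a Xc χ hκ ha hX hβ hδ
  obtain ⟨L, C₁, hC₁, hE⟩ := hEZ κ δ a Xc χ hκ ha hX hδ
  obtain ⟨B, hB, hBp⟩ := Pool.Agent.H91.G.pf_PUB 2 L β hβ
  have hB0 : 0 < B := by linarith
  have hB2 : 1 ≤ B ^ 2 := one_le_pow₀ hB
  have hC₁0 : 0 < C₁ := by linarith
  refine ⟨601 ^ 2 * B ^ 2 * C₁, by nlinarith, ?_⟩
  intro R A ρ K K₁ h α c b z₀ f P hCR hf hA hρ hρR hK hKρ hK₁ hα hb hαb htz hh hAh hF hP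
  have hC1R : C₁ ≤ R := by nlinarith
  have hBR : B ^ 2 ≤ R := by nlinarith
  have hR1 : 1 ≤ R := hB2.trans hBR
  have hR0 : 0 < R := by linarith
  have hρ0 : 0 < ρ := by linarith
  have hRd : 0 < R ^ δ := Real.rpow_pos_of_pos hR0 δ
  have hK0 : 0 < K := by linarith
  -- the classes
  let cl : Tp → ZMod 601 × ZMod 601 := fun p => ((p.1 0 : ZMod 601), (p.1 1 : ZMod 601))
  have hcl : ∀ p ∈ P, ∀ p' ∈ P, cl p = cl p' → p.2.1 = p'.2.1 → p.1 = p'.1 := by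
    intro p hp p' hp' h1 h2
    have h3 : ea ρ p = ea ρ p' := by
      unfold ea
      rw [h2]
    refine tag_eq K₁ hK₁ p.1 p'.1 (ea ρ p) (hF.tag p hp) (h3 ▸ hF.tag p' hp') ?_
    intro i
    have h4 : (p.1 0 : ZMod 601) = (p'.1 0 : ZMod 601) := congrArg Prod.fst h1
    have h5 : (p.1 1 : ZMod 601) = (p'.1 1 : ZMod 601) := congrArg Prod.snd h1
    fin_cases i
    · exact h4
    · exact h5
  have hone : ∀ q : ZMod 601 × ZMod 601,
      ((P.filter fun p => cl p = q).card : ℝ) * (B⁻¹ * h) ^ 2 ≤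
        C₁ * R ^ δ * (A ^ 2 * R ^ 2 / Real.sqrt K) := by
    intro q
    set Pq : Finset Tp := P.filter fun p => cl p = q with hPq
    have hmem : ∀ p, p ∈ Pq ↔ p ∈ P ∧ cl p = q := fun p => Finset.mem_filter
    have hinj : Set.InjOn (Prod.snd : Tp → (Fin 2 → ℤ) × Z 2) Pq := by
      intro p hp p' hp' hpp
      obtain ⟨h1, h2⟩ := (hmem p).1 hp
      obtain ⟨h3, h4⟩ := (hmem p').1 hp'
      have h5 := hcl p h1 p' h3 (h2.trans h4.symm) (congrArg Prod.fst hpp)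
      exact Prod.ext h5 hpp
    have hcard : (Pq.image (Prod.snd : Tp → (Fin 2 → ℤ) × Z 2)).card = Pq.card :=
      Finset.card_image_of_injOn hinj
    rw [← hcard]
    have hs2 : (ρ⁻¹)⁻¹ ^ 2 = ρ ^ 2 := by rw [inv_inv]
    refine hE R A ρ⁻¹ K (B⁻¹ * h) α c b z₀ f
      (Pq.image (Prod.snd : Tp → (Fin 2 → ℤ) × Z 2))
      (fun _ x => ((B⁻¹ : ℝ) : ℂ) * β x) hC1R hf hA (inv_pos.2 hρ0) (inv_le_one_of_one_le₀ hρ)
      ?_ hK ?_ hα hb hαb htz ?_ ?_ ?_
    · rw [inv_pow, ← div_eq_mul_inv]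
      exact (one_le_div (by positivity)).2 hρR
    · rw [← div_eq_mul_inv]
      exact (div_le_one hρ0).2 hKρ
    · -- height
      have hsq : B ≤ Real.sqrt R := Real.le_sqrt_of_sq_le hBR
      have hss : Real.sqrt R * Real.sqrt R = R := Real.mul_self_sqrt hR0.le
      have hs0 : 0 ≤ Real.sqrt R := Real.sqrt_nonneg R
      calc A ≤ Real.sqrt R * h := hAh
        _ = (Real.sqrt R * B) * (B⁻¹ * h) := by
            field_simp
        _ ≤ (Real.sqrt R * Real.sqrt R) * (B⁻¹ * h) := by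
            refine mul_le_mul_of_nonneg_right ?_ (by positivity)
            exact mul_le_mul_of_nonneg_left hsq hs0
        _ = R * (B⁻¹ * h) := by rw [hss]
    · intro p hp
      obtain ⟨p0, hp0, rfl⟩ := Finset.mem_image.1 hp
      obtain ⟨h1, h2⟩ := (hmem p0).1 hp0
      obtain ⟨q1, q2, q3⟩ := hP p0 h1
      refine ⟨hBp, ?_, ?_, ?_, ?_⟩
      · rw [TP_smul, norm_mul, Complex.norm_real, Real.norm_eq_abs, abs_of_pos (inv_pos.2 hB0)]
        exact mul_le_mul_of_nonneg_left (hF.pk p0 h1) (inv_pos.2 hB0).le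
      · rw [hs2]
        exact q1
      · rw [hs2]
        exact q2
      · exact q3
    · intro p hp p' hp' h1 hne
      obtain ⟨p0, hp0, rfl⟩ := Finset.mem_image.1 hp
      obtain ⟨p1, hp1, rfl⟩ := Finset.mem_image.1 hp'
      obtain ⟨h2, h3⟩ := (hmem p0).1 hp0
      obtain ⟨h4, h5⟩ := (hmem p1).1 hp1
      have h6 := hcl p0 h2 p1 h4 (h3.trans h5.symm) h1
      exact hF.sepP p0 h2 p1 h4 h6 h1 (fun h7 => hne (by rw [h7]))
  have hsum : P.card = ∑ q : ZMod 601 × ZMod 601, (P.filter fun p => cl p = q).card :=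
    card_fib P cl
  have hcardq : (Finset.univ : Finset (ZMod 601 × ZMod 601)).card = 601 ^ 2 := by
    rw [Finset.card_univ, Fintype.card_prod, ZMod.card]
    norm_num
  have htot : (P.card : ℝ) * (B⁻¹ * h) ^ 2 ≤
      601 ^ 2 * (C₁ * R ^ δ * (A ^ 2 * R ^ 2 / Real.sqrt K)) := by
    rw [hsum]
    push_cast
    rw [Finset.sum_mul]
    refine (Finset.sum_le_sum fun q _ => hone q).trans (le_of_eq ?_)
    rw [Finset.sum_const, hcardq, nsmul_eq_mul]
    push_cast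
    ring
  calc (P.card : ℝ) * h ^ 2 = B ^ 2 * ((P.card : ℝ) * (B⁻¹ * h) ^ 2) := by
        field_simp
    _ ≤ B ^ 2 * (601 ^ 2 * (C₁ * R ^ δ * (A ^ 2 * R ^ 2 / Real.sqrt K))) :=
        mul_le_mul_of_nonneg_left htot (by positivity)
    _ = _ := by ring

end Pool.Agent.H4.D3N.EZS
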